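import Pool.Agent.Lib.MP_cf6b16_an.I3

/-!
# Homeomorphic versus deformation energy infima for multiply connected domains

The definitions are in `Pool.Agent.Lib.MP_cf6b16_an.Defs`: `KDomain k Ω` (bounded `k`-connected domain),
`EH Ω Ωs` (infimum of the Dirichlet energies of the sense preserving homeomorphisms of `Ω` onto `Ωs` in
`W^{1,2}`), `ED Ω Ωs` (infimum of the energies of the deformations).  The two infima are equal.
-/

namespace Pool.Agent.Results.MP_cf6b16_an.EnergyInfima

/-- For every `k` and all bounded `k`-connected domains `Ω`, `Ωs` in the plane,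
the two energy infima agree. -/
theorem result : ∀ (k : ℕ) (Ω Ωs : Set ℂ), CF6.KDomain k Ω → CF6.KDomain k Ωs →
    CF6.EH Ω Ωs = CF6.ED Ω Ωs :=
  fun _ _ _ h1 h2 => CF6.EH_eq_ED h1 h2

end Pool.Agent.Results.MP_cf6b16_an.EnergyInfima
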